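import Pool.Agent.H1.SatD

namespace Pool.Agent.Results.MP_a5725d_an.Characterisation

open Filter Topology MeasureTheory

/-- the `k`-th Taylor coefficient at `0` -/
noncomputable def coeff (g : ℂ → ℂ) (k : ℕ) : ℂ := iteratedDeriv k g 0 / k.factorial

/-- `f ∈ H²`: analytic in the unit disc with square summable Taylor coefficients -/
def InH2 (f : ℂ → ℂ) : Prop :=
  DifferentiableOn ℂ f (Metric.ball 0 1) ∧ Summable fun k => ‖coeff f k‖ ^ 2

/-- `C_φ` is strongly asymptotically Toeplitz: for each `f ∈ H²` the functions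
`M_z^{*n} C_φ M_z^n f`, whose `k`-th Taylor coefficient is the `(n + k)`-th Taylor coefficient of
`φ ^ n * (f ∘ φ)`, converge in the norm of `H²` (the `ℓ²` norm of the Taylor coefficients). -/
def SAT (φ : ℂ → ℂ) : Prop :=
  ∀ f, InH2 f → ∃ g : ℕ → ℂ, Summable (fun k => ‖g k‖ ^ 2) ∧
    Tendsto (fun n : ℕ => ∑' k, ‖coeff (fun z => φ z ^ n * f (φ z)) (n + k) - g k‖ₑ ^ 2) atTop (𝓝 0)

theorem result (φ : ℂ → ℂ) (hφ : DifferentiableOn ℂ φ (Metric.ball 0 1))
    (hm : Set.MapsTo φ (Metric.ball 0 1) (Metric.ball 0 1)) :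
    SAT φ ↔ (∀ z ∈ Metric.ball (0 : ℂ) 1, φ z = z) ∨
      ∀ᵐ t ∂(volume.restrict (Set.Ioc 0 (2 * Real.pi))),
        Tendsto (fun r : ℝ => ‖φ (circleMap 0 r t)‖) (𝓝[<] 1) (𝓝 1) →
        ∃ d < 1, Tendsto (fun r : ℝ => (1 - ‖φ (circleMap 0 r t)‖) / (1 - r)) (𝓝[<] 1) (𝓝 d) :=
  (forall_congr' fun _ => and_imp).trans
    (Pool.Agent.H1.Sat.main hφ fun z hz => by simpa using hm (by simpa using hz))

end Pool.Agent.Results.MP_a5725d_an.Characterisation
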